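import Pool.Agent.helper60.DA.SpecV

/-!
# MP_fb2c2a_nt, row dv:FO
-/

set_option autoImplicit false

namespace Pool.Agent.helper60.DA

open Polynomial Finset Pool.Agent.helper60.DK

/-- data of `P` -/
theorem FO_aux1 {K : Type} [Field K] (h : ℕ) (W : K[X]) (hWd : W.natDegree ≤ 3 * h)
    (hWc : W.coeff (3 * h) = 1) (hW0 : W.coeff 0 = 1) (h4 : (4 : K) ^ h = 1) :
    ((1 + 4 * X) ^ h * W).natDegree ≤ 4 * h ∧ ((1 + 4 * X) ^ h * W).coeff (4 * h) = 1 ∧
      ((1 + 4 * X) ^ h * W).coeff 0 = 1 := by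
  have e4 : (4 : K[X]) = C 4 := (map_ofNat C 4).symm
  have hd1 : (1 + 4 * X : K[X]).natDegree ≤ 1 := by
    rw [e4]
    refine le_trans (natDegree_add_le _ _) ?_
    refine max_le ?_ ?_
    · rw [natDegree_one]; omega
    · exact le_trans (natDegree_C_mul_le _ _) natDegree_X_le
  have hc1 : (1 + 4 * X : K[X]).coeff 1 = 4 := by
    rw [e4]
    simp [coeff_one]
  have hd2 : ((1 + 4 * X : K[X]) ^ h).natDegree ≤ h * 1 := natDegree_pow_le_of_le h hd1
  have hc2 : ((1 + 4 * X : K[X]) ^ h).coeff (h * 1) = 1 := by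
    rw [coeff_pow_of_natDegree_le hd1, hc1, h4]
  refine ⟨?_, ?_, ?_⟩
  · have := natDegree_mul_le_of_le hd2 hWd
    omega
  · have e : 4 * h = h * 1 + 3 * h := by ring
    rw [e, coeff_mul_add_eq_of_natDegree_le hd2 hWd, hc2, hWc, one_mul]
  · rw [mul_coeff_zero, hW0, mul_one, coeff_zero_eq_eval_zero]
    simp

/-- data of `Θ` -/
theorem FO_aux2 {K : Type} [Field K] (h : ℕ) (h1 : 1 ≤ h) (v W : K[X])
    (hvd : v.natDegree ≤ 3 * h) (hWd : W.natDegree ≤ 3 * h) (hWc : W.coeff (3 * h) = 1) :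
    (X * ((1 + X) * (derivative v * W - v * derivative W) + C (3 / 2) * W ^ 2)).natDegree
      ≤ 6 * h + 1 ∧
    (X * ((1 + X) * (derivative v * W - v * derivative W) + C (3 / 2) * W ^ 2)).coeff (6 * h + 1)
      = 3 / 2 := by
  have hdv : (derivative v).natDegree ≤ 3 * h - 1 :=
    le_trans (natDegree_derivative_le v) (by omega)
  have hdW : (derivative W).natDegree ≤ 3 * h - 1 :=
    le_trans (natDegree_derivative_le W) (by omega)
  have e1 : 3 * h - 1 + 1 = 3 * h := by omega
  have hcv : (derivative v).coeff (3 * h - 1) = v.coeff (3 * h) * (3 * h : K) := by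
    rw [coeff_derivative, e1, Nat.cast_sub (by omega)]
    push_cast
    ring
  have hcW : (derivative W).coeff (3 * h - 1) = (3 * h : K) := by
    rw [coeff_derivative, e1, hWc, Nat.cast_sub (by omega)]
    push_cast
    ring
  have hD1 : (derivative v * W).natDegree ≤ 3 * h - 1 + 3 * h := natDegree_mul_le_of_le hdv hWd
  have hD2 : (v * derivative W).natDegree ≤ 3 * h + (3 * h - 1) := natDegree_mul_le_of_le hvd hdW
  have hD : (derivative v * W - v * derivative W).natDegree ≤ 6 * h - 1 := by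
    refine le_trans (natDegree_sub_le _ _) (max_le ?_ ?_) <;> omega
  have hDc : (derivative v * W - v * derivative W).coeff (6 * h - 1) = 0 := by
    have e2 : 6 * h - 1 = 3 * h - 1 + 3 * h := by omega
    have e3 : 3 * h - 1 + 3 * h = 3 * h + (3 * h - 1) := by omega
    rw [e2, coeff_sub, coeff_mul_add_eq_of_natDegree_le hdv hWd, e3,
      coeff_mul_add_eq_of_natDegree_le hvd hdW, hcv, hcW, hWc]
    ring
  have hDc' : (derivative v * W - v * derivative W).coeff (6 * h) = 0 :=
    coeff_eq_zero_of_natDegree_lt (by omega)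
  generalize derivative v * W - v * derivative W = D at *
  have hX1 : (1 + X : K[X]).natDegree ≤ 1 := by
    refine le_trans (natDegree_add_le _ _) (max_le ?_ ?_)
    · rw [natDegree_one]; omega
    · exact natDegree_X_le
  have hE : ((1 + X) * D).natDegree ≤ 6 * h := by
    have := natDegree_mul_le_of_le hX1 hD
    omega
  have hEc : ((1 + X) * D).coeff (6 * h) = 0 := by
    have e4 : 6 * h = 1 + (6 * h - 1) := by omega
    rw [e4, coeff_mul_add_eq_of_natDegree_le hX1 hD, hDc, mul_zero]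
  have hW2 : (W ^ 2).natDegree ≤ 2 * (3 * h) := natDegree_pow_le_of_le 2 hWd
  have hW2c : (W ^ 2).coeff (2 * (3 * h)) = 1 := by
    rw [coeff_pow_of_natDegree_le hWd, hWc, one_pow]
  have hF : (C (3 / 2 : K) * W ^ 2).natDegree ≤ 6 * h := by
    refine le_trans (natDegree_C_mul_le _ _) ?_
    omega
  have hFc : (C (3 / 2 : K) * W ^ 2).coeff (6 * h) = 3 / 2 := by
    have e5 : 6 * h = 2 * (3 * h) := by ring
    rw [coeff_C_mul, e5, hW2c, mul_one]
  have hG : ((1 + X) * D + C (3 / 2 : K) * W ^ 2).natDegree ≤ 6 * h :=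
    le_trans (natDegree_add_le _ _) (max_le hE hF)
  constructor
  · have := natDegree_mul_le_of_le (natDegree_X_le (R := K)) hG
    omega
  · rw [coeff_X_mul, coeff_add, hEc, hFc, zero_add]

theorem FO (vex : VEX_stmt) (fo1 : FO1_stmt) (cst : CST_stmt) (wl : WL_stmt) (npf : NPF_stmt) :
    FO_stmt := by
  intro p hp h7 h3 V hV
  have h5 : 5 ≤ p := by omega
  have hh2 := two_hh (p := p) h5
  obtain ⟨hVd, -⟩ := (vex p h5).2 V hV
  obtain ⟨hWc, -⟩ := wl p h5
  have hWd : (Wp p).natDegree ≤ 3 * hh p := natDegree_Wp h5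
  have hW0 : (Wp p).coeff 0 = 1 := Wp_coeff_zero
  have hvd : (red p V).natDegree ≤ 3 * hh p := le_trans (natDegree_map_le) hVd
  have h4 : (4 : ZMod p) ^ hh p = 1 := by
    have e : (4 : ZMod p) = 2 ^ 2 := by norm_num
    rw [e, ← pow_mul]
    have e2 : 2 * hh p = p - 1 := by omega
    rw [e2]
    exact ZMod.pow_card_sub_one_eq_one (two_ne h5)
  have h32 : (3 / 2 : ZMod p) ≠ 0 := by
    refine div_ne_zero ?_ (two_ne h5)
    have := cast_ne_zero_of_lt (p := p) (m := 3) (by omega) (by omega)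
    exact_mod_cast this
  obtain ⟨hPd, hPc, hP0⟩ := FO_aux1 (hh p) (Wp p) hWd hWc hW0 h4
  have hPe : (1 + 4 * X) ^ hh p * Wp p = Pp p := rfl
  rw [hPe] at hPd hPc hP0
  obtain ⟨hTd, hTc⟩ := FO_aux2 (hh p) (by omega) (red p V) (Wp p) hvd hWd hWc
  have hTe : X * ((1 + X) * (derivative (red p V) * Wp p - red p V * derivative (Wp p))
      + C (3 / 2) * Wp p ^ 2) = Th p (red p V) := rfl
  rw [hTe] at hTd hTc
  have hT0 : (Th p (red p V)).coeff 0 = 0 := by
    rw [← hTe, mul_coeff_zero, coeff_X_zero, zero_mul]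
  have hPne : Pp p ≠ 0 := by
    intro h
    rw [h, coeff_zero] at hPc
    exact zero_ne_one hPc
  obtain ⟨g, hg⟩ := cst p (Th p (red p V)) (Pp p) hPne (by omega) (npf p h7 h3) (fo1 p h7 V hV)
  generalize Th p (red p V) = T at *
  generalize Pp p = P at *
  have hTd' : T.natDegree = 6 * hh p + 1 :=
    natDegree_eq_of_le_of_coeff_ne_zero hTd (by rw [hTc]; exact h32)
  have hPd' : P.natDegree = 4 * hh p :=
    natDegree_eq_of_le_of_coeff_ne_zero hPd (by rw [hPc]; exact one_ne_zero)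
  have hTne : T ≠ 0 := by
    intro h
    rw [h, coeff_zero] at hTc
    exact h32 hTc.symm
  have hene : expand (ZMod p) p g ≠ 0 := by
    intro h
    rw [h, zero_mul] at hg
    exact hTne hg
  have hdeg : g.natDegree * p + 4 * hh p = 6 * hh p + 1 := by
    rw [← hTd', hg, natDegree_mul hene hPne, natDegree_expand, hPd']
  have hg1 : g.natDegree = 1 := by
    have e : g.natDegree * p = 1 * p := by omega
    exact Nat.eq_of_mul_eq_mul_right hp.out.pos e
  have hed : (expand (ZMod p) p g).natDegree ≤ 1 * p := by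
    rw [natDegree_expand, hg1]
  have hgc : g.coeff 1 = 3 / 2 := by
    have e1 : 6 * hh p + 1 = 1 * p + 4 * hh p := by omega
    have e2 := hTc
    rw [hg, e1, coeff_mul_add_eq_of_natDegree_le hed (le_of_eq hPd'), hPc, mul_one,
      coeff_expand_mul hp.out.pos] at e2
    exact e2
  have hg0 : g.coeff 0 = 0 := by
    have e2 := hT0
    rw [hg, mul_coeff_zero, hP0, mul_one] at e2
    have e3 : (expand (ZMod p) p g).coeff (0 * p) = g.coeff 0 := coeff_expand_mul hp.out.pos g 0
    rw [zero_mul] at e3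
    rw [← e3, e2]
  have hge : g = C (3 / 2) * X := by
    rw [eq_X_add_C_of_natDegree_le_one (le_of_eq hg1), hgc, hg0, C_0, add_zero]
  rw [hg, hge]
  congr 1
  simp

end Pool.Agent.helper60.DA
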